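import Mathlib

/-!
# Surjective span and surjective semi-span of a simple triod

There is a simple triod, with a compatible metric, whose surjective span is strictly smaller than
its surjective semi-span.
-/

set_option autoImplicit false

namespace Pool.Agent.Results.MP_afcd7b_gt.TriodSemispan

open Set Metric Topology

/-- The surjective span of `X`: the supremum of all `a ≥ 0` for which some connected subset `C` of
`X × X` with both projections equal to `X` satisfies `a ≤ dist x y` for all `(x, y) ∈ C`. -/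
noncomputable def surjSpan (X : Type) [MetricSpace X] : ℝ :=
  sSup {a : ℝ | 0 ≤ a ∧ ∃ C : Set (X × X), IsConnected C ∧
    (Prod.fst '' C = univ ∧ Prod.snd '' C = univ) ∧ ∀ p ∈ C, a ≤ dist p.1 p.2}

/-- The surjective semi-span of `X`: the supremum of all `a ≥ 0` for which some connected subset `C`
of `X × X` with at least one of the two projections equal to `X` satisfies `a ≤ dist x y` for all
`(x, y) ∈ C`. -/
noncomputable def surjSemispan (X : Type) [MetricSpace X] : ℝ :=
  sSup {a : ℝ | 0 ≤ a ∧ ∃ C : Set (X × X), IsConnected C ∧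
    (Prod.fst '' C = univ ∨ Prod.snd '' C = univ) ∧ ∀ p ∈ C, a ≤ dist p.1 p.2}

/-- `T` is a simple triod: the union of three arcs (images of `[0,1]` under continuous injections)
which share one common endpoint and are otherwise pairwise disjoint. -/
def IsSimpleTriod {Y : Type} [TopologicalSpace Y] (T : Set Y) : Prop :=
  ∃ (p : Y) (f : Fin 3 → unitInterval → Y),
    (∀ i, Continuous (f i) ∧ Function.Injective (f i) ∧ f i 0 = p) ∧
    (∀ i j, i ≠ j → range (f i) ∩ range (f j) = {p}) ∧ T = ⋃ i, range (f i)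

/-! ### Separating functions -/

section ury

variable {Y : Type} [MetricSpace Y]

/-- A continuous function equal to `1` exactly on `A` and to `-1` exactly on `B`. -/
noncomputable def ury (A B : Set Y) (z : Y) : ℝ :=
  (infDist z B - infDist z A) / (infDist z A + infDist z B)

/-- The standing assumptions on `A` and `B`. -/
structure Sep (A B : Set Y) : Prop where
  ca : IsClosed A
  cb : IsClosed B
  na : A.Nonempty
  nb : B.Nonempty
  d : Disjoint A B

variable {A B : Set Y}

lemma den_pos (h : Sep A B) (z : Y) : 0 < infDist z A + infDist z B := by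
  by_cases hz : z ∈ A
  · have hzB : z ∉ B := fun hb => Set.disjoint_left.1 h.d hz hb
    have := (h.cb.notMem_iff_infDist_pos h.nb).1 hzB
    have h2 : 0 ≤ infDist z A := infDist_nonneg
    linarith
  · have := (h.ca.notMem_iff_infDist_pos h.na).1 hz
    have h2 : 0 ≤ infDist z B := infDist_nonneg
    linarith

lemma ury_cont (h : Sep A B) : Continuous (ury A B) := by
  unfold ury
  refine Continuous.div ?_ ?_ ?_
  · exact (continuous_infDist_pt B).sub (continuous_infDist_pt A)
  · exact (continuous_infDist_pt A).add (continuous_infDist_pt B)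
  · intro z
    exact (den_pos h z).ne'

lemma ury_le (h : Sep A B) (z : Y) : ury A B z ≤ 1 := by
  unfold ury
  rw [div_le_one (den_pos h z)]
  have h2 : 0 ≤ infDist z A := infDist_nonneg
  linarith

lemma le_ury (h : Sep A B) (z : Y) : -1 ≤ ury A B z := by
  unfold ury
  rw [le_div_iff₀ (den_pos h z)]
  have h2 : 0 ≤ infDist z B := infDist_nonneg
  linarith

lemma ury_one (h : Sep A B) (z : Y) : ury A B z = 1 ↔ z ∈ A := by
  unfold ury
  rw [div_eq_one_iff_eq (den_pos h z).ne', h.ca.mem_iff_infDist_zero h.na]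
  constructor <;> intro h3 <;> linarith

lemma ury_neg_one (h : Sep A B) (z : Y) : ury A B z = -1 ↔ z ∈ B := by
  unfold ury
  rw [div_eq_iff (den_pos h z).ne', h.cb.mem_iff_infDist_zero h.nb]
  constructor <;> intro h3 <;> linarith

end ury

/-! ### The standard triod -/

/-- Ambient space of the standard triod. -/
abbrev V := Fin 3 → ℝ

/-- The point at height `u` on the leg `i`. -/
noncomputable def L (i : Fin 3) (u : ℝ) : V := Pi.single i u

/-- Part of the leg `i`. -/
def seg (i : Fin 3) (a b : ℝ) : Set V := L i '' Icc a b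

/-- The standard triod. -/
def T0 : Set V := ⋃ i, seg i 0 1

lemma L_zero (i : Fin 3) : L i 0 = 0 := by
  funext j
  simp [L, Pi.single_apply]

lemma L_same (i : Fin 3) (u : ℝ) : L i u i = u := by
  simp [L]

lemma L_off {i j : Fin 3} (h : j ≠ i) (u : ℝ) : L i u j = 0 := by
  simp [L, h]

lemma L_cont (i : Fin 3) : Continuous (L i) := by
  refine continuous_pi fun j => ?_
  by_cases h : j = i
  · subst h
    simp only [L_same]
    exact continuous_id
  · simp only [L_off h]
    exact continuous_const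

lemma L_inj (i : Fin 3) : Function.Injective (L i) := by
  intro u v h
  have := congrFun h i
  rwa [L_same, L_same] at this

/-- Data of the staircase: legs and bounds of the first and second factors. -/
def pi : Fin 11 → Fin 3 := ![0, 0, 0, 2, 2, 2, 2, 1, 1, 1, 1]
def qi : Fin 11 → Fin 3 := ![0, 1, 1, 1, 1, 0, 0, 0, 0, 1, 1]
noncomputable def pa : Fin 11 → ℝ := ![2/3, 2/3, 0, 0, 1, 1, 0, 0, 1/3, 1/3, 1/3]
noncomputable def pb : Fin 11 → ℝ := ![1, 2/3, 2/3, 1, 1, 1, 1, 1/3, 1/3, 1/3, 1]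
noncomputable def qa : Fin 11 → ℝ := ![0, 0, 2/3, 2/3, 0, 0, 1/3, 1/3, 0, 0, 1/6]
noncomputable def qb : Fin 11 → ℝ := ![0, 2/3, 2/3, 2/3, 2/3, 1/3, 1/3, 1/3, 1/3, 1/6, 1/6]

def P (k : Fin 11) : Set V := seg (pi k) (pa k) (pb k)
def Q (k : Fin 11) : Set V := seg (qi k) (qa k) (qb k)

lemma p_le (k : Fin 11) : pa k ≤ pb k := by
  fin_cases k <;> simp [pa, pb] <;> norm_num
lemma q_le (k : Fin 11) : qa k ≤ qb k := by
  fin_cases k <;> simp [qa, qb] <;> norm_num

/-- Antisymmetric separating function. -/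
noncomputable def al (x : V) : ℝ := x 0 * (x 0 - 1/2) + x 1 * (1/2 - x 1) + x 2
noncomputable def hh (x y : V) : ℝ := al x - al y + 8 * x 1 * y 1 * (x 1 - y 1)

lemma hh_anti (x y : V) : hh y x = - hh x y := by unfold hh; ring

lemma hh_cont : Continuous fun p : V × V => hh p.1 p.2 := by
  unfold hh al
  fun_prop

/-- First region. -/
def O1 (x y : V) : Prop := 0 < hh x y ∧ y 2 < 1

lemma isOpen_O1 : IsOpen {p : V × V | O1 p.1 p.2} := by
  unfold O1
  refine IsOpen.inter ?_ ?_
  · exact isOpen_lt continuous_const hh_cont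
  · exact isOpen_lt ((continuous_apply (2 : Fin 3)).comp continuous_snd) continuous_const

lemma PQ (k : Fin 11) {x y : V} (hx : x ∈ P k) (hy : y ∈ Q k) : O1 x y := by
  obtain ⟨u, ⟨hu1, hu2⟩, rfl⟩ := hx
  obtain ⟨v, ⟨hv1, hv2⟩, rfl⟩ := hy
  unfold O1 hh al L
  fin_cases k <;> simp [pi, qi, pa, pb, qa, qb] at hu1 hu2 hv1 hv2 ⊢
  · obtain rfl : v = 0 := le_antisymm hv2 hv1
    nlinarith
  · obtain rfl : u = 2/3 := le_antisymm hu2 hu1
    nlinarith [sq_nonneg (v - 1/4)]
  · obtain rfl : v = 2/3 := le_antisymm hv2 hv1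
    nlinarith [sq_nonneg (u - 1/4)]
  · obtain rfl : v = 2/3 := le_antisymm hv2 hv1
    nlinarith
  · obtain rfl : u = 1 := le_antisymm hu2 hu1
    nlinarith [sq_nonneg (v - 1/4)]
  · obtain rfl : u = 1 := le_antisymm hu2 hu1
    nlinarith [sq_nonneg (v - 1/4)]
  · obtain rfl : v = 1/3 := le_antisymm (by linarith) (by linarith)
    nlinarith
  · obtain rfl : v = 1/3 := le_antisymm (by linarith) (by linarith)
    nlinarith
  · obtain rfl : u = 1/3 := le_antisymm (by linarith) (by linarith)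
    nlinarith
  · obtain rfl : u = 1/3 := le_antisymm (by linarith) (by linarith)
    nlinarith
  · obtain rfl : v = 1/6 := le_antisymm (by linarith) (by linarith)
    nlinarith


lemma hh_self (x : V) : hh x x = 0 := by unfold hh; ring

lemma mem_T0_of_seg {i : Fin 3} {a b : ℝ} (ha : 0 ≤ a) (hb : b ≤ 1) : seg i a b ⊆ T0 := by
  rintro _ ⟨u, hu, rfl⟩
  exact mem_iUnion.2 ⟨i, u, ⟨ha.trans hu.1, hu.2.trans hb⟩, rfl⟩

lemma pa_nn (k : Fin 11) : 0 ≤ pa k := by
  fin_cases k <;> simp [pa] <;> norm_num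
lemma pb_le (k : Fin 11) : pb k ≤ 1 := by
  fin_cases k <;> simp [pb] <;> norm_num
lemma qa_nn (k : Fin 11) : 0 ≤ qa k := by
  fin_cases k <;> simp [qa] <;> norm_num
lemma qb_le (k : Fin 11) : qb k ≤ 1 := by
  fin_cases k <;> simp [qb] <;> norm_num

lemma P_sub (k : Fin 11) : P k ⊆ T0 := mem_T0_of_seg (pa_nn k) (pb_le k)
lemma Q_sub (k : Fin 11) : Q k ⊆ T0 := mem_T0_of_seg (qa_nn k) (qb_le k)

lemma seg_compact (i : Fin 3) (a b : ℝ) : IsCompact (seg i a b) :=
  isCompact_Icc.image (L_cont i)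

lemma seg_conn (i : Fin 3) {a b : ℝ} : IsPreconnected (seg i a b) :=
  isPreconnected_Icc.image _ (L_cont i).continuousOn

lemma seg_nonempty (i : Fin 3) {a b : ℝ} (h : a ≤ b) : (seg i a b).Nonempty :=
  (nonempty_Icc.2 h).image _

lemma sep (k : Fin 11) : Sep (Q k) (P k) where
  ca := (seg_compact _ _ _).isClosed
  cb := (seg_compact _ _ _).isClosed
  na := seg_nonempty _ (q_le k)
  nb := seg_nonempty _ (p_le k)
  d := by
    rw [Set.disjoint_left]
    intro x hq hp
    have := (PQ k hp hq).1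
    rw [hh_self] at this
    exact lt_irrefl _ this

lemma T0_compact : IsCompact T0 := isCompact_iUnion fun i => seg_compact i 0 1

/-- Two points of the standard triod are at sup distance at most one. -/
lemma dist_T0 {x y : V} (hx : x ∈ T0) (hy : y ∈ T0) : dist x y ≤ 1 := by
  obtain ⟨i, u, ⟨hu0, hu1⟩, rfl⟩ := mem_iUnion.1 hx
  obtain ⟨j, v, ⟨hv0, hv1⟩, rfl⟩ := mem_iUnion.1 hy
  rw [dist_pi_le_iff zero_le_one]
  intro k
  have h1 : L i u k ∈ Icc (0:ℝ) 1 := by
    by_cases h : k = i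
    · subst h; rw [L_same]; exact ⟨hu0, hu1⟩
    · rw [L_off h]; simp
  have h2 : L j v k ∈ Icc (0:ℝ) 1 := by
    by_cases h : k = j
    · subst h; rw [L_same]; exact ⟨hv0, hv1⟩
    · rw [L_off h]; simp
  rw [Real.dist_eq, abs_le]
  constructor <;> linarith [h1.1, h1.2, h2.1, h2.2]

/-- The ambient space. -/
abbrev W := V × (Fin 11 → ℝ)

/-- The embedding of the standard triod. -/
noncomputable def em (x : V) : W := (x, fun k => ury (Q k) (P k) x)

lemma em_cont : Continuous em := by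
  unfold em
  refine continuous_id.prodMk (continuous_pi fun k => ?_)
  exact ury_cont (sep k)

lemma em_inj : Function.Injective em := fun x y h => congrArg Prod.fst h

lemma em_dist_le {x y : V} (hx : x ∈ T0) (hy : y ∈ T0) : dist (em x) (em y) ≤ 2 := by
  rw [Prod.dist_eq]
  refine max_le ((dist_T0 hx hy).trans one_le_two) ?_
  rw [dist_pi_le_iff zero_le_two]
  intro k
  have h1 := ury_le (sep k) x
  have h2 := le_ury (sep k) x
  have h3 := ury_le (sep k) y
  have h4 := le_ury (sep k) y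
  simp only [em]
  rw [Real.dist_eq, abs_le]
  constructor <;> linarith

lemma em_dist_two {x y : V} (hx : x ∈ T0) (hy : y ∈ T0) (h : 2 ≤ dist (em x) (em y)) :
    O1 x y ∨ O1 y x := by
  rw [Prod.dist_eq] at h
  rcases le_max_iff.1 h with h | h
  · have := dist_T0 hx hy
    have h' : (2:ℝ) ≤ dist x y := h
    linarith
  · by_contra hno
    have : dist (em x).2 (em y).2 < 2 := by
      rw [dist_pi_lt_iff zero_lt_two]
      intro k
      have h1 := ury_le (sep k) x
      have h2 := le_ury (sep k) x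
      have h3 := ury_le (sep k) y
      have h4 := le_ury (sep k) y
      simp only [em]
      rw [Real.dist_eq, abs_lt]
      constructor
      · by_contra h5
        have h6 : ury (Q k) (P k) x = -1 := by linarith
        have h7 : ury (Q k) (P k) y = 1 := by linarith
        exact hno (Or.inl (PQ k ((ury_neg_one (sep k) x).1 h6) ((ury_one (sep k) y).1 h7)))
      · by_contra h5
        have h6 : ury (Q k) (P k) x = 1 := by linarith
        have h7 : ury (Q k) (P k) y = -1 := by linarith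
        exact hno (Or.inr (PQ k ((ury_neg_one (sep k) y).1 h7) ((ury_one (sep k) x).1 h6)))
    linarith

lemma em_dist_PQ (k : Fin 11) {x y : V} (hx : x ∈ P k) (hy : y ∈ Q k) :
    2 ≤ dist (em x) (em y) := by
  have h1 : dist ((em x).2 k) ((em y).2 k) ≤ dist (em x).2 (em y).2 := dist_le_pi_dist _ _ k
  have h2 : dist (em x).2 (em y).2 ≤ dist (em x) (em y) := by
    rw [Prod.dist_eq]; exact le_max_right _ _
  have h3 : dist ((em x).2 k) ((em y).2 k) = 2 := by
    simp only [em]
    rw [(ury_neg_one (sep k) x).2 hx, (ury_one (sep k) y).2 hy, Real.dist_eq]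
    norm_num
  linarith

/-- The triod. -/
def T : Set W := em '' T0

lemma isSimpleTriod : IsSimpleTriod T := by
  refine ⟨em 0, fun i t => em (L i t), ?_, ?_, ?_⟩
  · intro i
    refine ⟨em_cont.comp ((L_cont i).comp continuous_subtype_val), ?_, ?_⟩
    · intro s t h
      exact Subtype.ext (L_inj i (em_inj h))
    · simp [L_zero]
  · intro i j hij
    apply Subset.antisymm
    · rintro _ ⟨⟨s, rfl⟩, ⟨t, h⟩⟩
      have h1 := em_inj h
      have h2 := congrFun h1 i
      rw [L_same, L_off hij] at h2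
      rw [mem_singleton_iff]
      show em (L i s) = em 0
      rw [← h2, L_zero]
    · rintro _ rfl
      exact ⟨⟨0, by simp [L_zero]⟩, ⟨0, by simp [L_zero]⟩⟩
  · unfold T T0
    rw [image_iUnion]
    refine iUnion_congr fun i => ?_
    ext z
    constructor
    · rintro ⟨_, ⟨u, hu, rfl⟩, rfl⟩
      exact ⟨⟨u, hu⟩, rfl⟩
    · rintro ⟨t, rfl⟩
      exact ⟨_, ⟨t, t.2, rfl⟩, rfl⟩

/-- Compactness bound. -/
lemma exists_bound : ∃ s : ℝ, s < 2 ∧ ∀ x ∈ T0, ∀ y ∈ T0,
    s < dist (em x) (em y) → O1 x y ∨ O1 y x := by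
  have hK : IsCompact ((T0 ×ˢ T0) \ {p : V × V | O1 p.1 p.2 ∨ O1 p.2 p.1}) := by
    refine (T0_compact.prod T0_compact).diff ?_
    refine IsOpen.union isOpen_O1 ?_
    exact isOpen_O1.preimage continuous_swap
  rcases ((T0 ×ˢ T0) \ {p : V × V | O1 p.1 p.2 ∨ O1 p.2 p.1}).eq_empty_or_nonempty with he | hne
  · refine ⟨0, zero_lt_two, fun x hx y hy _ => ?_⟩
    by_contra hno
    have : ((x, y) : V × V) ∈ (T0 ×ˢ T0) \ {p : V × V | O1 p.1 p.2 ∨ O1 p.2 p.1} :=
      ⟨⟨hx, hy⟩, hno⟩
    rw [he] at this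
    exact this
  · obtain ⟨p, hp, hmax⟩ := hK.exists_isMaxOn hne
      (f := fun p : V × V => dist (em p.1) (em p.2))
      (((em_cont.comp continuous_fst).dist (em_cont.comp continuous_snd)).continuousOn)
    refine ⟨dist (em p.1) (em p.2), ?_, fun x hx y hy h => ?_⟩
    · by_contra h2
      exact hp.2 (em_dist_two hp.1.1 hp.1.2 (not_lt.1 h2))
    · by_contra hno
      have : dist (em x) (em y) ≤ dist (em p.1) (em p.2) :=
        hmax (show ((x, y) : V × V) ∈ _ from ⟨⟨hx, hy⟩, hno⟩)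
      linarith

/-- The connected subset witnessing the semi-span. -/
def Wit : Set (T × T) := {p | ∃ k, p.1.1.1 ∈ P k ∧ p.2.1.1 ∈ Q k}

lemma T_ext {p q : T} (h : p.1.1 = q.1.1) : p = q := by
  obtain ⟨_, ⟨x, hx, rfl⟩⟩ := p
  obtain ⟨_, ⟨y, hy, rfl⟩⟩ := q
  have : x = y := h
  subst this
  rfl

/-- The embedding as a map to `T`. -/
noncomputable def emT (x : T0) : T := ⟨em x, x, x.2, rfl⟩

lemma emT_cont : Continuous emT :=
  Continuous.subtype_mk (em_cont.comp continuous_subtype_val) _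

lemma emT_fst (x : T0) : (emT x).1.1 = x := rfl

lemma emT_surj (p : T) : ∃ x : T0, emT x = p := by
  obtain ⟨_, ⟨x, hx, rfl⟩⟩ := p
  exact ⟨⟨x, hx⟩, rfl⟩

/-- The `k`-th block. -/
def Blk (k : Fin 11) : Set (T0 × T0) := {p | p.1.1 ∈ P k ∧ p.2.1 ∈ Q k}

lemma pre_seg_conn {S : Set V} (hS : IsPreconnected S) (h : S ⊆ T0) :
    IsPreconnected {x : T0 | x.1 ∈ S} := by
  have : {x : T0 | x.1 ∈ S} = (Subtype.val ⁻¹' S : Set T0) := rfl
  rw [this]
  rw [← Topology.IsInducing.subtypeVal.isPreconnected_image, Subtype.image_preimage_coe,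
    inter_eq_self_of_subset_right h]
  exact hS

lemma Blk_conn (k : Fin 11) : IsPreconnected (Blk k) := by
  have h : Blk k = {x : T0 | x.1 ∈ P k} ×ˢ {x : T0 | x.1 ∈ Q k} := by
    ext p; rfl
  rw [h]
  exact (pre_seg_conn (seg_conn _) (P_sub k)).prod (pre_seg_conn (seg_conn _) (Q_sub k))


/-- Consecutive blocks meet. -/
lemma Blk_next (k : Fin 10) : (Blk k.castSucc ∩ Blk k.succ).Nonempty := by
  have m : ∀ (i i' : Fin 3) (a b u : ℝ), (i = i' ∨ u = 0) → a ≤ u → u ≤ b → L i u ∈ seg i' a b := by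
    rintro i i' a b u (rfl | rfl) h1 h2
    · exact ⟨u, ⟨h1, h2⟩, rfl⟩
    · exact ⟨0, ⟨h1, h2⟩, by rw [L_zero, L_zero]⟩
  have key : ∃ x ∈ P k.castSucc ∩ P k.succ, ∃ y ∈ Q k.castSucc ∩ Q k.succ, True := by
    unfold P Q
    fin_cases k
    · exact ⟨L 0 (2/3), ⟨m _ _ _ _ _ (by norm_num [pi]) (by norm_num [pa]) (by norm_num [pb]),
        m _ _ _ _ _ (by norm_num [pi]) (by norm_num [pa]) (by norm_num [pb])⟩, L 1 (0),
        ⟨m _ _ _ _ _ (by norm_num [qi]) (by norm_num [qa]) (by norm_num [qb]),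
        m _ _ _ _ _ (by norm_num [qi]) (by norm_num [qa]) (by norm_num [qb])⟩, trivial⟩
    · exact ⟨L 0 (2/3), ⟨m _ _ _ _ _ (by norm_num [pi]) (by norm_num [pa]) (by norm_num [pb]),
        m 0 _ _ _ _ (Or.inl rfl) (show (0:ℝ) ≤ 2/3 by norm_num) (show (2/3:ℝ) ≤ 2/3 from le_rfl)⟩, L 1 (2/3),
        ⟨m _ _ _ _ _ (by norm_num [qi]) (by norm_num [qa]) (by norm_num [qb]),
        m 1 _ _ _ _ (Or.inl rfl) (show (2/3:ℝ) ≤ 2/3 from le_rfl) (show (2/3:ℝ) ≤ 2/3 from le_rfl)⟩, trivial⟩
    · exact ⟨L 0 (0), ⟨m _ _ _ _ _ (by norm_num [pi]) (by norm_num [pa]) (by norm_num [pb]),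
        m _ _ _ _ _ (by norm_num [pi]) (by norm_num [pa]) (by norm_num [pb])⟩, L 1 (2/3),
        ⟨m _ _ _ _ _ (by norm_num [qi]) (by norm_num [qa]) (by norm_num [qb]),
        m _ _ _ _ _ (by norm_num [qi]) (by norm_num [qa]) (by norm_num [qb])⟩, trivial⟩
    · exact ⟨L 2 (1), ⟨m _ _ _ _ _ (by norm_num [pi]) (by norm_num [pa]) (by norm_num [pb]),
        m _ _ _ _ _ (by norm_num [pi]) (by norm_num [pa]) (by norm_num [pb])⟩, L 1 (2/3),
        ⟨m _ _ _ _ _ (by norm_num [qi]) (by norm_num [qa]) (by norm_num [qb]),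
        m _ _ _ _ _ (by norm_num [qi]) (by norm_num [qa]) (by norm_num [qb])⟩, trivial⟩
    · exact ⟨L 2 (1), ⟨m _ _ _ _ _ (by norm_num [pi]) (by norm_num [pa]) (by norm_num [pb]),
        m _ _ _ _ _ (by norm_num [pi]) (by norm_num [pa]) (by norm_num [pb])⟩, L 0 (0),
        ⟨m _ _ _ _ _ (by norm_num [qi]) (by norm_num [qa]) (by norm_num [qb]),
        m _ _ _ _ _ (by norm_num [qi]) (by norm_num [qa]) (by norm_num [qb])⟩, trivial⟩
    · exact ⟨L 2 (1), ⟨m _ _ _ _ _ (by norm_num [pi]) (by norm_num [pa]) (by norm_num [pb]),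
        m _ _ _ _ _ (by norm_num [pi]) (by norm_num [pa]) (by norm_num [pb])⟩, L 0 (1/3),
        ⟨m _ _ _ _ _ (by norm_num [qi]) (by norm_num [qa]) (by norm_num [qb]),
        m _ _ _ _ _ (by norm_num [qi]) (by norm_num [qa]) (by norm_num [qb])⟩, trivial⟩
    · exact ⟨L 2 (0), ⟨m _ _ _ _ _ (by norm_num [pi]) (by norm_num [pa]) (by norm_num [pb]),
        m _ _ _ _ _ (by norm_num [pi]) (by norm_num [pa]) (by norm_num [pb])⟩, L 0 (1/3),
        ⟨m _ _ _ _ _ (by norm_num [qi]) (by norm_num [qa]) (by norm_num [qb]),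
        m _ _ _ _ _ (by norm_num [qi]) (by norm_num [qa]) (by norm_num [qb])⟩, trivial⟩
    · exact ⟨L 1 (1/3), ⟨m _ _ _ _ _ (by norm_num [pi]) (by norm_num [pa]) (by norm_num [pb]),
        m _ _ _ _ _ (by norm_num [pi]) (by norm_num [pa]) (by norm_num [pb])⟩, L 0 (1/3),
        ⟨m _ _ _ _ _ (by norm_num [qi]) (by norm_num [qa]) (by norm_num [qb]),
        m _ _ _ _ _ (by norm_num [qi]) (by norm_num [qa]) (by norm_num [qb])⟩, trivial⟩
    · exact ⟨L 1 (1/3), ⟨m _ _ _ _ _ (by norm_num [pi]) (by norm_num [pa]) (by norm_num [pb]),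
        m _ _ _ _ _ (by norm_num [pi]) (by norm_num [pa]) (by norm_num [pb])⟩, L 1 (0),
        ⟨m _ _ _ _ _ (by norm_num [qi]) (by norm_num [qa]) (by norm_num [qb]),
        m _ _ _ _ _ (by norm_num [qi]) (by norm_num [qa]) (by norm_num [qb])⟩, trivial⟩
    · exact ⟨L 1 (1/3), ⟨m _ _ _ _ _ (by norm_num [pi]) (by norm_num [pa]) (by norm_num [pb]),
        m _ _ _ _ _ (by norm_num [pi]) (by norm_num [pa]) (by norm_num [pb])⟩, L 1 (1/6),
        ⟨m _ _ _ _ _ (by norm_num [qi]) (by norm_num [qa]) (by norm_num [qb]),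
        m _ _ _ _ _ (by norm_num [qi]) (by norm_num [qa]) (by norm_num [qb])⟩, trivial⟩
  obtain ⟨x, hx, y, hy, -⟩ := key
  exact ⟨(⟨x, P_sub _ hx.1⟩, ⟨y, Q_sub _ hy.1⟩), ⟨hx.1, hy.1⟩, ⟨hx.2, hy.2⟩⟩


/-- The staircase. -/
def St : Set (T0 × T0) := ⋃ k, Blk k

lemma Blk_nonempty (k : Fin 11) : (Blk k).Nonempty := by
  obtain ⟨x, hx⟩ : (P k).Nonempty := seg_nonempty _ (p_le k)
  obtain ⟨y, hy⟩ : (Q k).Nonempty := seg_nonempty _ (q_le k)
  exact ⟨(⟨x, P_sub _ hx⟩, ⟨y, Q_sub _ hy⟩), hx, hy⟩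

lemma St_conn : IsConnected St := by
  refine IsConnected.iUnion_of_chain (fun k => ⟨Blk_nonempty k, Blk_conn k⟩) fun k => ?_
  refine Fin.lastCases ?_ (fun i => ?_) k
  · rw [Fin.orderSucc_last, inter_self]
    exact Blk_nonempty _
  · rw [Fin.orderSucc_castSucc]
    exact Blk_next i

/-- The first projection of the staircase is everything. -/
lemma St_fst (x : T0) : ∃ y : T0, (x, y) ∈ St := by
  obtain ⟨k, hk⟩ : ∃ k, x.1 ∈ P k := by
    obtain ⟨i, u, ⟨hu0, hu1⟩, hx⟩ := mem_iUnion.1 x.2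
    rw [← hx]
    fin_cases i
    · rcases le_total u (2/3) with h | h
      · exact ⟨2, u, ⟨by norm_num [pa]; exact hu0, by norm_num [pb]; exact h⟩, rfl⟩
      · exact ⟨0, u, ⟨by norm_num [pa]; exact h, by norm_num [pb]; exact hu1⟩, rfl⟩
    · rcases le_total u (1/3) with h | h
      · exact ⟨7, u, ⟨by norm_num [pa]; exact hu0, by norm_num [pb]; exact h⟩, rfl⟩
      · exact ⟨10, u, ⟨by norm_num [pa]; exact h, by norm_num [pb]; exact hu1⟩, rfl⟩
    · exact ⟨3, u, ⟨by norm_num [pa]; exact hu0, by norm_num [pb]; exact hu1⟩, rfl⟩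
  obtain ⟨y, hy⟩ : (Q k).Nonempty := seg_nonempty _ (q_le k)
  exact ⟨⟨y, Q_sub _ hy⟩, mem_iUnion.2 ⟨k, hk, hy⟩⟩

lemma semispan_ge : 2 ≤ surjSemispan T := by
  unfold surjSemispan
  apply le_csSup
  · refine ⟨2, ?_⟩
    rintro a ⟨-, C, hC, -, hd⟩
    obtain ⟨⟨⟨_, x, hx, rfl⟩, ⟨_, y, hy, rfl⟩⟩, hp⟩ := hC.nonempty
    exact (hd _ hp).trans (em_dist_le hx hy)
  · refine ⟨zero_le_two, Prod.map emT emT '' St,
      St_conn.image _ (emT_cont.prodMap emT_cont).continuousOn, Or.inl ?_, ?_⟩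
    · apply eq_univ_of_forall
      intro p
      obtain ⟨x, rfl⟩ := emT_surj p
      obtain ⟨y, hy⟩ := St_fst x
      exact ⟨_, ⟨_, hy, rfl⟩, rfl⟩
    · rintro _ ⟨⟨x, y⟩, hxy, rfl⟩
      obtain ⟨k, hk⟩ := mem_iUnion.1 hxy
      exact em_dist_PQ k hk.1 hk.2

/-- The tip of the third leg. -/
noncomputable def tip : T := emT ⟨L 2 1, mem_iUnion.2 ⟨2, 1, ⟨zero_le_one, le_rfl⟩, rfl⟩⟩

lemma span_lt : surjSpan T < 2 := by
  obtain ⟨s, hs, hb⟩ := exists_bound
  have key : surjSpan T ≤ max s 0 := by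
    unfold surjSpan
    apply csSup_le
    · refine ⟨0, le_rfl, Prod.map emT emT '' diagonal T0, ?_, ⟨?_, ?_⟩, fun p _ => dist_nonneg⟩
      · refine IsConnected.image ?_ _ (emT_cont.prodMap emT_cont).continuousOn
        have hc : IsConnected (univ : Set T0) := by
          have h1 := St_conn.image Prod.fst continuous_fst.continuousOn
          have h2 : Prod.fst '' St = univ := by
            apply eq_univ_of_forall
            intro x
            obtain ⟨y, hy⟩ := St_fst x
            exact ⟨_, hy, rfl⟩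
          rwa [h2] at h1
        have h3 := hc.image (fun x : T0 => (x, x)) (continuous_id.prodMk continuous_id).continuousOn
        convert h3 using 1
        ext ⟨x, y⟩
        simp [mem_diagonal_iff, Prod.ext_iff]
      · apply eq_univ_of_forall
        intro p
        obtain ⟨x, rfl⟩ := emT_surj p
        exact ⟨_, ⟨(x, x), rfl, rfl⟩, rfl⟩
      · apply eq_univ_of_forall
        intro p
        obtain ⟨x, rfl⟩ := emT_surj p
        exact ⟨_, ⟨(x, x), rfl, rfl⟩, rfl⟩
    · rintro a ⟨-, C, hC, ⟨hf, hg⟩, hd⟩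
      by_contra hlt
      rw [not_le, max_lt_iff] at hlt
      set A : Set (T × T) := {p | O1 p.1.1.1 p.2.1.1} with hA
      set B : Set (T × T) := {p | O1 p.2.1.1 p.1.1.1} with hB
      have cf : Continuous fun p : T × T => (p.1.1.1, p.2.1.1) :=
        (continuous_fst.comp (continuous_subtype_val.comp continuous_fst)).prodMk
          (continuous_fst.comp (continuous_subtype_val.comp continuous_snd))
      have hAo : IsOpen A := isOpen_O1.preimage cf
      have hBo : IsOpen B := (isOpen_O1.preimage continuous_swap).preimage cf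
      have hAB : Disjoint A B := by
        rw [Set.disjoint_left]
        intro p hp hq
        have h1 := hp.1
        have h2 := hq.1
        rw [hh_anti] at h2
        linarith
      have hcov : C ⊆ A ∪ B := by
        rintro ⟨⟨_, x, hx, rfl⟩, ⟨_, y, hy, rfl⟩⟩ hp
        exact hb x hx y hy (lt_of_lt_of_le hlt.1 (hd _ hp))
      rcases hC.isPreconnected.subset_or_subset hAo hBo hAB hcov with h | h
      · obtain ⟨p, hp, hpt⟩ : tip ∈ Prod.snd '' C := by rw [hg]; trivial
        have := (h hp).2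
        rw [hpt] at this
        have h2 : (tip.1.1 : V) 2 = 1 := L_same 2 1
        linarith
      · obtain ⟨p, hp, hpt⟩ : tip ∈ Prod.fst '' C := by rw [hf]; trivial
        have := (h hp).2
        rw [hpt] at this
        have h2 : (tip.1.1 : V) 2 = 1 := L_same 2 1
        linarith
  exact key.trans_lt (max_lt hs zero_lt_two)

/-- There is a simple triod with a compatible metric whose surjective span is strictly smaller
than its surjective semi-span. -/
theorem result : ∃ T : Set (V × (Fin 11 → ℝ)), IsSimpleTriod T ∧ surjSpan T < surjSemispan T :=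
  ⟨T, isSimpleTriod, span_lt.trans_le semispan_ge⟩

end Pool.Agent.Results.MP_afcd7b_gt.TriodSemispan
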